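import Pool.Agent.Helper95.EN.Dich

/-!
Maximal inverse branches (helper95), for the EN project of MP_9ee088_an: counting of the points
which run into the same critical point.
-/

open Complex Set Filter Topology Metric

namespace Helper95.EN

open Pool.Agent.Helper72.EN

variable {f : ℂ → ℂ}

/-- local form of Hurwitz' theorem -/
def HurwitzLocal : Prop :=
  ∀ (F : ℂ → ℂ), Differentiable ℂ F → (∃ z, F z ≠ 0) → ∀ z0 : ℂ, ∀ᶠ ρ in 𝓝[>] (0:ℝ),
    ∃ δ > 0, ∀ G : ℂ → ℂ, Differentiable ℂ G →
      (∀ z ∈ closedBall z0 ρ, ‖G z - F z‖ < δ) →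
        cnt G (ball z0 ρ) = analyticOrderNatAt F z0

theorem card_le_cnt {F : ℂ → ℂ} (hF : Differentiable ℂ F) (hne : ∃ z, F z ≠ 0) {S : Set ℂ}
    (hfin : {z ∈ S | F z = 0}.Finite) (T : Finset ℂ) (hT : ∀ z ∈ T, z ∈ S ∧ F z = 0) :
    T.card ≤ cnt F S := by
  rw [cnt_eq_toFinset hfin]
  have hsub : T ⊆ hfin.toFinset := by
    intro z hz
    rw [Set.Finite.mem_toFinset]
    exact hT z hz
  calc T.card = ∑ z ∈ T, 1 := by simp
    _ ≤ ∑ z ∈ T, analyticOrderNatAt F z := by
        apply Finset.sum_le_sum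
        intro z hz
        exact ord_pos hF hne (hT z hz).2
    _ ≤ _ := Finset.sum_le_sum_of_subset hsub

theorem exists_sub_ne (hf : Differentiable ℂ f) (hne : ∃ z, deriv f z ≠ 0) (p : ℂ) :
    ∃ z, f z - p ≠ 0 := by
  by_contra h
  push Not at h
  obtain ⟨z, hz⟩ := hne
  apply hz
  have : f = fun _ => p := by
    ext u
    exact sub_eq_zero.1 (h u)
  rw [this]
  simp

/-- order of `f - f ζ` -/
theorem ord_sub (hf : Differentiable ℂ f) (hne : ∃ z, deriv f z ≠ 0) (ζ : ℂ) :
    analyticOrderNatAt (fun z => f z - f ζ) ζ = analyticOrderNatAt (deriv f) ζ + 1 := by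
  have h1 := (hf.analyticAt ζ).analyticOrderAt_deriv_add_one
  have hfd : Differentiable ℂ (deriv f) := fun z => (hf.analyticAt z).deriv.differentiableAt
  have htop := ord_ne_top hfd hne ζ
  have htop2 := ord_ne_top (hf.sub (differentiable_const (f ζ)))
    (exists_sub_ne hf hne (f ζ)) ζ
  have h2 := Nat.cast_analyticOrderNatAt htop
  have h3 : analyticOrderAt (fun z => f z - f ζ) ζ ≠ ⊤ := htop2
  have h4 := Nat.cast_analyticOrderNatAt h3
  have h5 : ((analyticOrderNatAt (fun z => f z - f ζ) ζ : ℕ) : ℕ∞) =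
      ((analyticOrderNatAt (deriv f) ζ + 1 : ℕ) : ℕ∞) := by
    rw [h4, ← h1, ← h2]
    simp
  exact_mod_cast h5

/-- at most `2 * mult` of the points run into the same critical point -/
theorem fiber_card (HW : HurwitzLocal) (hf : Differentiable ℂ f) (hne : ∃ z, deriv f z ≠ 0)
    {w : ℂ} {r : ℝ} (hr : 0 < r) {ζ : ℂ} (hζ : deriv f ζ = 0) (A : Finset ℂ)
    (hA : ∀ z ∈ A, f z = w ∧ InjOn f (comp f w r z) ∧ ζ ∈ closure (comp f w r z)) :
    A.card ≤ 2 * analyticOrderNatAt (deriv f) ζ := by
  classical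
  have hfd : Differentiable ℂ (deriv f) := fun z => (hf.analyticAt z).deriv.differentiableAt
  have hn1 : 1 ≤ analyticOrderNatAt (deriv f) ζ := ord_pos hfd hne hζ
  rcases A.eq_empty_or_nonempty with rfl | hAne
  · simp
  have hFd : Differentiable ℂ (fun z => f z - f ζ) := hf.sub (differentiable_const _)
  have hW := HW _ hFd (exists_sub_ne hf hne (f ζ)) ζ
  obtain ⟨ρ, ⟨δ, hδ, hδ'⟩, hρ⟩ := (hW.and self_mem_nhdsWithin).exists
  replace hρ : 0 < ρ := hρ
  -- the values near f ζ
  choose! m hm0 hm using fun z (hz : z ∈ A) => local_onto hf hne (hA z hz).2.2 hρ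
  obtain ⟨μ, hμ0, hμ⟩ : ∃ μ > 0, ∀ z ∈ A, μ ≤ m z := by
    refine ⟨A.inf' hAne m, ?_, fun z hz => Finset.inf'_le _ hz⟩
    rw [gt_iff_lt, Finset.lt_inf'_iff]
    exact fun z hz => hm0 z hz
  have hcl : f ζ ∈ closure (ball w r) := by
    obtain ⟨z, hz⟩ := hAne
    have hmaps : MapsTo f (comp f w r z) (ball w r) := by
      intro u hu
      rw [mem_ball, dist_eq_norm]
      exact comp_sub w r z hu
    exact map_mem_closure hf.continuous (hA z hz).2.2 hmaps
  obtain ⟨p, hp, hpd⟩ := Metric.mem_closure_iff.1 hcl (min δ μ) (lt_min hδ hμ0)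
  have hex : ∀ z ∈ A, ∃ y ∈ comp f w r z, y ∈ ball ζ ρ ∧ f y = p := by
    intro z hz
    apply hm z hz p hp
    rw [mem_ball, dist_comm]
    exact lt_of_lt_of_le hpd ((min_le_right _ _).trans (hμ z hz))
  choose! y hy1 hy2 hy3 using hex
  have hyinj : Set.InjOn y A := by
    intro z hz z' hz' hzz
    have e1 : comp f w r z = comp f w r (y z) := connectedComponentIn_eq (hy1 z hz)
    have e2 : comp f w r z' = comp f w r (y z') := connectedComponentIn_eq (hy1 z' hz')
    have e3 : comp f w r z = comp f w r z' := by rw [e1, e2, hzz]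
    have m1 : z ∈ comp f w r z := mem_comp (by rw [(hA z hz).1, sub_self, norm_zero]; exact hr)
    have m2 : z' ∈ comp f w r z := by
      rw [e3]
      exact mem_comp (by rw [(hA z' hz').1, sub_self, norm_zero]; exact hr)
    exact (hA z hz).2.1 m1 m2 (by rw [(hA z hz).1, (hA z' hz').1])
  have hGd : Differentiable ℂ (fun z => f z - p) := hf.sub (differentiable_const _)
  have hcnt : cnt (fun z => f z - p) (ball ζ ρ) = analyticOrderNatAt (fun z => f z - f ζ) ζ := by
    apply hδ' _ hGd
    intro z _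
    have : f z - p - (f z - f ζ) = f ζ - p := by ring
    rw [this, ← dist_eq_norm]
    exact lt_of_lt_of_le hpd (min_le_left _ _)
  have hcard : (A.image y).card ≤ cnt (fun z => f z - p) (ball ζ ρ) := by
    apply card_le_cnt hGd (exists_sub_ne hf hne p)
    · apply (finite_zeros hGd (exists_sub_ne hf hne p) (isCompact_closedBall ζ ρ)).subset
      rintro z ⟨h1, h2⟩
      exact ⟨ball_subset_closedBall h1, h2⟩
    · intro u hu
      rw [Finset.mem_image] at hu
      obtain ⟨z, hz, rfl⟩ := hu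
      exact ⟨hy2 z hz, by simp only [hy3 z hz, sub_self]⟩
  rw [Finset.card_image_of_injOn hyinj, hcnt, ord_sub hf hne] at hcard
  omega

/-- an injective component has no critical point -/
theorem no_crit_of_inj (HW : HurwitzLocal) (hf : Differentiable ℂ f) (hne : ∃ z, deriv f z ≠ 0)
    {O : Set ℂ} (hO : IsOpen O) (hinj : InjOn f O) {ζ : ℂ} (hζ : ζ ∈ O) : deriv f ζ ≠ 0 := by
  classical
  intro h0
  have hfd : Differentiable ℂ (deriv f) := fun z => (hf.analyticAt z).deriv.differentiableAt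
  have hn1 : 1 ≤ analyticOrderNatAt (deriv f) ζ := ord_pos hfd hne h0
  have hFd : Differentiable ℂ (fun z => f z - f ζ) := hf.sub (differentiable_const _)
  have hW := HW _ hFd (exists_sub_ne hf hne (f ζ)) ζ
  have e1 : ∀ᶠ z in 𝓝 ζ, z ∈ O := hO.mem_nhds hζ
  have e2 : ∀ᶠ z in 𝓝 ζ, z ≠ ζ → deriv f z ≠ 0 := by
    have hA := hfd.analyticAt ζ
    rcases hA.eventually_eq_zero_or_eventually_ne_zero with h1 | h1
    · exact absurd (analyticOrderAt_eq_top.2 h1) (ord_ne_top hfd hne ζ)
    · rw [eventually_nhdsWithin_iff] at h1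
      filter_upwards [h1] with z hz hzne
      exact hz hzne
  obtain ⟨ε, hε, hball⟩ := Metric.eventually_nhds_iff_ball.1 (e1.and e2)
  have e3 : ∀ᶠ ρ in 𝓝[>] (0:ℝ), ρ < ε := by
    filter_upwards [Ioo_mem_nhdsGT hε] with ρ hρ
    exact hρ.2
  obtain ⟨ρ, ⟨⟨δ, hδ, hδ'⟩, hρε⟩, hρ⟩ := ((hW.and e3).and self_mem_nhdsWithin).exists
  replace hρ : 0 < ρ := hρ
  -- a value p near f ζ and different from it
  set p : ℂ := f ζ + ((δ / 2 : ℝ) : ℂ) with hp
  have hpne : p ≠ f ζ := by
    rw [hp]
    intro h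
    have : ((δ / 2 : ℝ) : ℂ) = 0 := by
      have := h
      simpa using this
    rw [Complex.ofReal_eq_zero] at this
    linarith
  have hGd : Differentiable ℂ (fun z => f z - p) := hf.sub (differentiable_const _)
  have hcnt : cnt (fun z => f z - p) (ball ζ ρ) = analyticOrderNatAt (fun z => f z - f ζ) ζ := by
    apply hδ' _ hGd
    intro z _
    have : f z - p - (f z - f ζ) = -((δ / 2 : ℝ) : ℂ) := by rw [hp]; ring
    rw [this, norm_neg, Complex.norm_real, Real.norm_eq_abs, abs_of_pos (by linarith)]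
    linarith
  rw [ord_sub hf hne] at hcnt
  -- all the zeros are simple, and there is at most one
  have hfin : {z ∈ ball ζ ρ | (fun z => f z - p) z = 0}.Finite := by
    apply (finite_zeros hGd (exists_sub_ne hf hne p) (isCompact_closedBall ζ ρ)).subset
    rintro z ⟨h1, h2⟩
    exact ⟨ball_subset_closedBall h1, h2⟩
  rw [cnt_eq_toFinset hfin] at hcnt
  have hsimple : ∀ z ∈ hfin.toFinset, analyticOrderNatAt (fun z => f z - p) z = 1 := by
    intro z hz
    rw [Set.Finite.mem_toFinset] at hz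
    obtain ⟨hz1, hz2⟩ := hz
    simp only at hz2
    have hfz : f z = p := sub_eq_zero.1 hz2
    have hzne : z ≠ ζ := by
      intro h
      rw [h] at hfz
      exact hpne hfz.symm
    have hder : deriv f z ≠ 0 := (hball z (ball_subset_ball hρε.le hz1)).2 hzne
    have h1 := ord_sub hf hne z
    rw [hfz] at h1
    rw [h1]
    have h2 : analyticOrderAt (deriv f) z = 0 :=
      (hfd.analyticAt z).analyticOrderAt_eq_zero.2 hder
    have h3 : analyticOrderNatAt (deriv f) z = 0 := by
      unfold analyticOrderNatAt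
      rw [h2]
      rfl
    rw [h3]
  rw [Finset.sum_congr rfl hsimple, Finset.sum_const, smul_eq_mul, mul_one] at hcnt
  have hcard2 : hfin.toFinset.card ≤ 1 := by
    rw [Finset.card_le_one]
    intro a ha b hb
    rw [Set.Finite.mem_toFinset] at ha hb
    apply hinj (hball a (ball_subset_ball hρε.le ha.1)).1
      (hball b (ball_subset_ball hρε.le hb.1)).1
    have h1 := ha.2
    have h2 := hb.2
    simp only at h1 h2
    rw [sub_eq_zero.1 h1, sub_eq_zero.1 h2]
  omega

/-- finite form of the count -/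
theorem count_fin (HW : HurwitzLocal) (hf : Differentiable ℂ f) {w : ℂ} {R : ℝ} (T : Finset ℂ)
    (hT : ∀ z ∈ T, f z = w ∧ Bornology.IsBounded (comp f w R z) ∧
      ∃ x ∈ comp f w R z, deriv f x = 0) :
    ∃ Z : Finset ℂ, (∀ ζ ∈ Z, deriv f ζ = 0 ∧ ‖f ζ - w‖ < R ∧ ∃ z ∈ T, ζ ∈ comp f w R z) ∧
      T.card ≤ ∑ ζ ∈ Z, 2 * analyticOrderNatAt (deriv f) ζ := by
  classical
  rcases T.eq_empty_or_nonempty with rfl | hTne
  · exact ⟨∅, by simp, by simp⟩
  -- R is positive and f is not constant
  obtain ⟨z0, hz0⟩ := hTne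
  obtain ⟨x0, hx0, -⟩ := (hT z0 hz0).2.2
  have hR : 0 < R := lt_of_le_of_lt (norm_nonneg _) (comp_sub w R z0 hx0)
  have hne : ∃ z, deriv f z ≠ 0 := by
    by_contra h
    push Not at h
    have hconst : ∀ u, f u = w := by
      intro u
      rw [← (hT z0 hz0).1]
      exact is_const_of_deriv_eq_zero hf h u z0
    have huniv : comp f w R z0 = univ := by
      unfold comp
      have : {z | ‖f z - w‖ < R} = univ := by
        ext u
        simp only [mem_univ, iff_true, Set.mem_ofPred_eq]
        rw [hconst u, sub_self, norm_zero]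
        exact hR
      rw [this, connectedComponentIn_univ, PreconnectedSpace.connectedComponent_eq_univ]
    have hb := (hT z0 hz0).2.1
    rw [huniv] at hb
    exact NormedSpace.unbounded_univ ℂ ℂ hb
  have hfd : Differentiable ℂ (deriv f) := fun z => (hf.analyticAt z).deriv.differentiableAt
  -- the critical point met by z
  have hex : ∀ z ∈ T, ∃ ζ, deriv f ζ = 0 ∧ ζ ∈ comp f w R z ∧
      ((f ζ = w ∧ ζ = z) ∨ (f ζ ≠ w ∧ InjOn f (comp f w ‖f ζ - w‖ z) ∧
        ζ ∈ closure (comp f w ‖f ζ - w‖ z))) := by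
    intro z hz
    obtain ⟨hzw, hb, x, hx, hxc⟩ := hT z hz
    have hzR : z ∈ comp f w R z := mem_comp (by rw [hzw, sub_self, norm_zero]; exact hR)
    by_cases hzc : deriv f z = 0
    · exact ⟨z, hzc, hzR, Or.inl ⟨hzw, rfl⟩⟩
    · have hd := dichotomy hf hzc (R := R) (by rw [hzw]; exact hb)
      rw [hzw] at hd
      rcases hd with hinj | ⟨r, hr0, hrR, hinj, ζ, hζ, hζ0⟩
      · exact absurd hxc (no_crit_of_inj HW hf hne (comp_isOpen hf.continuous w R z) hinj hx)
      · have hle := closure_comp_le hf.continuous hζ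
        have hnotin : ζ ∉ comp f w r z := fun h =>
          no_crit_of_inj HW hf hne (comp_isOpen hf.continuous w r z) hinj h hζ0
        have heq : ‖f ζ - w‖ = r := by
          rcases hle.lt_or_eq with h | h
          · exact absurd (mem_of_closure hf.continuous hζ h) hnotin
          · exact h
        refine ⟨ζ, hζ0, ?_, Or.inr ⟨?_, ?_, ?_⟩⟩
        · exact closure_comp_subset hf.continuous hrR
            (by rw [hzw, sub_self, norm_zero]; exact hr0) hζ
        · intro h
          rw [h, sub_self, norm_zero] at heq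
          linarith
        · rw [heq]; exact hinj
        · rw [heq]; exact hζ
  choose! ζ h1 h2 h3 using hex
  refine ⟨T.image ζ, ?_, ?_⟩
  · intro x hx
    rw [Finset.mem_image] at hx
    obtain ⟨z, hz, rfl⟩ := hx
    exact ⟨h1 z hz, comp_sub w R z (h2 z hz), z, hz, h2 z hz⟩
  · have hcard : T.card = ∑ x ∈ T.image ζ, (T.filter (fun z => ζ z = x)).card := by
      rw [Finset.card_eq_sum_card_image ζ T]
    rw [hcard]
    apply Finset.sum_le_sum
    intro x hx
    rw [Finset.mem_image] at hx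
    obtain ⟨z1, hz1, rfl⟩ := hx
    by_cases hw : f (ζ z1) = w
    · -- only one point
      have hsub : T.filter (fun z => ζ z = ζ z1) ⊆ {ζ z1} := by
        intro z hz
        rw [Finset.mem_filter] at hz
        rw [Finset.mem_singleton]
        rcases h3 z hz.1 with h | h
        · rw [← hz.2]; exact h.2.symm
        · exact absurd (by rw [hz.2]; exact hw) h.1
      have hc := Finset.card_le_card hsub
      rw [Finset.card_singleton] at hc
      have := ord_pos hfd hne (h1 z1 hz1)
      omega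
    · apply fiber_card HW hf hne (r := ‖f (ζ z1) - w‖)
        (norm_pos_iff.2 (sub_ne_zero.2 hw)) (h1 z1 hz1)
      intro z hz
      rw [Finset.mem_filter] at hz
      rcases h3 z hz.1 with h | h
      · exact absurd (by rw [← hz.2]; exact h.1) hw
      · rw [hz.2] at h
        exact ⟨(hT z hz.1).1, h.2.1, h.2.2⟩

end Helper95.EN
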