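import Pool.Agent.Helper95.EN.Count

/-!
Critical value motion (helper95), for the EN project of MP_9ee088_an.
-/

open Complex Set Filter Topology Metric

namespace Helper95.EN

/-- stability of the number of zeros in a disc -/
def HurwitzStatement : Prop :=
  ∀ (F : ℂ → ℂ), Differentiable ℂ F → ∀ (z0 : ℂ) (r : ℝ), 0 < r →
    (∀ z ∈ sphere z0 r, F z ≠ 0) →
    ∃ δ > 0, ∀ G : ℂ → ℂ, Differentiable ℂ G →
      (∀ z ∈ closedBall z0 r, ‖G z - F z‖ < δ) → cnt G (ball z0 r) = cnt F (ball z0 r)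

section motion

variable {K : Set ℂ} {Th : Set ℂ} {g h : ℂ → ℂ} {q r : ℝ}

/-- the family -/
noncomputable def fam (g h : ℂ → ℂ) (s : ℝ) (z : ℂ) : ℂ := g z + s * h z

/-- its derivative -/
noncomputable def dfam (g h : ℂ → ℂ) (s : ℝ) (z : ℂ) : ℂ := deriv g z + s * deriv h z

/-- the set counted at time `s` -/
def cset (K Th : Set ℂ) (g h : ℂ → ℂ) (r s : ℝ) : Set ℂ :=
  {z ∈ K | infDist (fam g h s z) Th ≤ s * r}

theorem deriv_diff (hg : Differentiable ℂ g) : Differentiable ℂ (deriv g) := fun z =>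
  (hg.analyticAt z).deriv.differentiableAt

theorem fam_diff (hg : Differentiable ℂ g) (hh : Differentiable ℂ h) (s : ℝ) :
    Differentiable ℂ (fam g h s) := by
  unfold fam
  exact hg.add (hh.const_mul _)

theorem dfam_diff (hg : Differentiable ℂ g) (hh : Differentiable ℂ h) (s : ℝ) :
    Differentiable ℂ (dfam g h s) := by
  unfold dfam
  exact (deriv_diff hg).add ((deriv_diff hh).const_mul _)

theorem deriv_fam (hg : Differentiable ℂ g) (hh : Differentiable ℂ h) (s : ℝ) :
    deriv (fam g h s) = dfam g h s := by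
  ext z
  unfold fam dfam
  rw [deriv_fun_add (hg z) ((hh.const_mul _) z), deriv_const_mul _ (hh z)]

theorem fam_cont (hg : Differentiable ℂ g) (hh : Differentiable ℂ h) :
    Continuous (fun p : ℝ × ℂ => fam g h p.1 p.2) := by
  unfold fam
  have h1 := hg.continuous
  have h2 := hh.continuous
  fun_prop

theorem dfam_cont (hg : Differentiable ℂ g) (hh : Differentiable ℂ h) :
    Continuous (fun p : ℝ × ℂ => dfam g h p.1 p.2) := by
  unfold dfam
  have h1 := (deriv_diff hg).continuous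
  have h2 := (deriv_diff hh).continuous
  fun_prop

/-- the local step -/
theorem step (HW : HurwitzStatement) (hK : IsCompact K) (hg : Differentiable ℂ g)
    (hh : Differentiable ℂ h) (hq : 0 ≤ q) (hqr : q < r) (hhK : ∀ z ∈ K, ‖h z‖ ≤ q)
    (hnd : ∀ s ∈ Icc (0:ℝ) 1, ∃ z, dfam g h s z ≠ 0)
    (hb : ∀ z ∈ frontier K, r < infDist (g z + h z) Th) (s0 : ℝ) (hs0 : s0 ∈ Icc (0:ℝ) 1) :
    ∀ᶠ s in 𝓝 s0, s ∈ Icc (0:ℝ) 1 →
      cnt (dfam g h s) (cset K Th g h r s) ≤ cnt (dfam g h s0) (cset K Th g h r s0) ∧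
      (s0 ≤ s →
        cnt (dfam g h s0) (cset K Th g h r s0) ≤ cnt (dfam g h s) (cset K Th g h r s)) := by
  classical
  have hKc : IsClosed K := hK.isClosed
  -- the bound of h'
  obtain ⟨M, hM0, hM⟩ : ∃ M : ℝ, 0 < M ∧ ∀ z ∈ K, ‖deriv h z‖ ≤ M := by
    obtain ⟨M, hM⟩ := hK.exists_bound_of_continuousOn (deriv_diff hh).continuous.continuousOn
    exact ⟨max M 1, by positivity, fun z hz => (hM z hz).trans (le_max_left _ _)⟩
  set η : ℝ := (r - q) / M with hη
  have hη0 : 0 < η := div_pos (by linarith) hM0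
  -- zeros counted at s0
  have hfinK : ∀ s ∈ Icc (0:ℝ) 1, {z ∈ K | dfam g h s z = 0}.Finite := fun s hs =>
    finite_zeros (dfam_diff hg hh s) (hnd s hs) hK
  have hZfin : {z ∈ cset K Th g h r s0 | dfam g h s0 z = 0}.Finite := by
    apply (hfinK s0 hs0).subset
    rintro z ⟨h1, h2⟩
    exact ⟨h1.1, h2⟩
  set Z := hZfin.toFinset with hZ
  have hZmem : ∀ z, z ∈ Z ↔ (z ∈ K ∧ infDist (fam g h s0 z) Th ≤ s0 * r) ∧ dfam g h s0 z = 0 := by
    intro z
    rw [hZ, Set.Finite.mem_toFinset]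
    rfl
  -- these zeros are in the interior
  have hZint : ∀ z ∈ Z, z ∈ interior K := by
    intro z hz
    rw [hZmem] at hz
    by_contra hni
    have hfr : z ∈ frontier K := by
      rw [hKc.frontier_eq]
      exact ⟨hz.1.1, hni⟩
    have h1 := hb z hfr
    have h2 : infDist (g z + h z) Th ≤ infDist (fam g h s0 z) Th + dist (g z + h z) (fam g h s0 z) :=
      infDist_le_infDist_add_dist
    have h3 : dist (g z + h z) (fam g h s0 z) = (1 - s0) * ‖h z‖ := by
      unfold fam
      rw [dist_eq_norm]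
      have : g z + h z - (g z + ↑s0 * h z) = ((1 - s0 : ℝ) : ℂ) * h z := by
        push_cast; ring
      rw [this, norm_mul, Complex.norm_real, Real.norm_eq_abs, abs_of_nonneg (by linarith [hs0.2])]
    have h4 := hhK z hz.1.1
    have h5 : (1 - s0) * ‖h z‖ ≤ (1 - s0) * r :=
      mul_le_mul_of_nonneg_left (by linarith) (by linarith [hs0.2])
    have h6 := hz.1.2
    rw [h3] at h2
    nlinarith
  -- small radius
  have hρ : ∀ᶠ ρ in 𝓝[>] (0:ℝ), ∀ z0 ∈ Z, closedBall z0 ρ ⊆ K ∧
      (∀ z ∈ closedBall z0 ρ, dfam g h s0 z = 0 → z = z0) ∧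
      (∀ z ∈ closedBall z0 ρ, ‖fam g h s0 z - fam g h s0 z0‖ ≤ η * ‖dfam g h s0 z‖) := by
    rw [Filter.eventually_all_finset]
    intro z0 hz0
    have e1 : ∀ᶠ z in 𝓝 z0, z ∈ K := by
      have := hZint z0 hz0
      exact mem_interior_iff_mem_nhds.1 this
    have e2 : ∀ᶠ z in 𝓝 z0, dfam g h s0 z = 0 → z = z0 := by
      have hA := (dfam_diff hg hh s0).analyticAt z0
      rcases hA.eventually_eq_zero_or_eventually_ne_zero with h1 | h1
      · exact absurd (analyticOrderAt_eq_top.2 h1) (ord_ne_top (dfam_diff hg hh s0) (hnd s0 hs0) z0)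
      · rw [eventually_nhdsWithin_iff] at h1
        filter_upwards [h1] with z hz h0
        by_contra hne
        exact hz hne h0
    have e3 : ∀ᶠ z in 𝓝 z0, ‖fam g h s0 z - fam g h s0 z0‖ ≤ η * ‖dfam g h s0 z‖ := by
      have := sub_le_deriv (fam_diff hg hh s0) (by rw [deriv_fam hg hh]; exact hnd s0 hs0) z0 hη0
      rw [deriv_fam hg hh] at this
      exact this
    obtain ⟨ε, hε, hball⟩ := Metric.eventually_nhds_iff_ball.1 (e1.and (e2.and e3))
    filter_upwards [Ioo_mem_nhdsGT hε] with ρ hρ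
    have hsub : ∀ z ∈ closedBall z0 ρ, z ∈ ball z0 ε := by
      intro z hz
      rw [mem_closedBall] at hz
      rw [mem_ball]
      exact lt_of_le_of_lt hz hρ.2
    exact ⟨fun z hz => (hball z (hsub z hz)).1, fun z hz => (hball z (hsub z hz)).2.1,
      fun z hz => (hball z (hsub z hz)).2.2⟩
  have hsep : ∀ᶠ ρ in 𝓝[>] (0:ℝ), ∀ z0 ∈ Z, ∀ z1 ∈ Z, z0 ≠ z1 →
      Disjoint (ball z0 ρ) (ball z1 ρ) := by
    rw [Filter.eventually_all_finset]
    intro z0 _
    rw [Filter.eventually_all_finset]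
    intro z1 _
    by_cases hne : z0 = z1
    · exact Filter.Eventually.of_forall (fun ρ h => absurd hne h)
    · have hd : 0 < dist z0 z1 / 2 := by
        have := dist_pos.2 hne
        linarith
      filter_upwards [Ioo_mem_nhdsGT hd] with ρ hρ _
      apply ball_disjoint_ball
      linarith [hρ.2]
  obtain ⟨ρ, ⟨hρ1, hρ2⟩, hρ0⟩ := ((hρ.and hsep).and self_mem_nhdsWithin).exists
  replace hρ0 : 0 < ρ := hρ0
  -- Hurwitz
  have hHW : ∀ᶠ s in 𝓝 s0, ∀ z0 ∈ Z,
      cnt (dfam g h s) (ball z0 ρ) = cnt (dfam g h s0) (ball z0 ρ) := by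
    rw [Filter.eventually_all_finset]
    intro z0 hz0
    obtain ⟨hsubK, huniq, _⟩ := hρ1 z0 hz0
    obtain ⟨δ, hδ, hδ'⟩ := HW (dfam g h s0) (dfam_diff hg hh s0) z0 ρ hρ0 (by
      intro z hz h0
      have := huniq z (sphere_subset_closedBall hz) h0
      rw [this, mem_sphere, dist_self] at hz
      exact hρ0.ne hz)
    have hpos : 0 < δ / M := div_pos hδ hM0
    filter_upwards [Metric.ball_mem_nhds s0 hpos] with s hs
    apply hδ' _ (dfam_diff hg hh s)
    intro z hz
    have h1 : dfam g h s z - dfam g h s0 z = ((s - s0 : ℝ) : ℂ) * deriv h z := by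
      unfold dfam
      push_cast
      ring
    rw [h1, norm_mul, Complex.norm_real, Real.norm_eq_abs]
    rw [mem_ball, Real.dist_eq] at hs
    calc |s - s0| * ‖deriv h z‖ ≤ |s - s0| * M :=
          mul_le_mul_of_nonneg_left (hM z (hsubK hz)) (abs_nonneg _)
      _ < δ / M * M := mul_lt_mul_of_pos_right hs hM0
      _ = δ := div_mul_cancel₀ _ hM0.ne'
  -- outside of the discs
  have hout : ∀ᶠ s in 𝓝 s0, ∀ z ∈ K \ ⋃ z0 ∈ Z, ball z0 ρ,
      ¬ (dfam g h s z = 0 ∧ infDist (fam g h s z) Th ≤ s * r) := by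
    have hK1 : IsCompact (K \ ⋃ z0 ∈ Z, ball z0 ρ) := by
      apply hK.diff
      exact isOpen_biUnion (fun z0 _ => isOpen_ball)
    apply hK1.eventually_forall_of_forall_eventually
    intro z hz
    have hclosed : IsClosed {p : ℝ × ℂ | dfam g h p.1 p.2 = 0 ∧
        infDist (fam g h p.1 p.2) Th ≤ p.1 * r} := by
      apply IsClosed.inter
      · exact isClosed_eq (dfam_cont hg hh) continuous_const
      · exact isClosed_le ((continuous_infDist_pt Th).comp (fam_cont hg hh)) (by fun_prop)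
    have hnot : (s0, z) ∉ {p : ℝ × ℂ | dfam g h p.1 p.2 = 0 ∧
        infDist (fam g h p.1 p.2) Th ≤ p.1 * r} := by
      rintro ⟨h1, h2⟩
      apply hz.2
      have hzZ : z ∈ Z := (hZmem z).2 ⟨⟨hz.1, h2⟩, h1⟩
      simp only [Set.mem_iUnion]
      exact ⟨z, hzZ, mem_ball_self hρ0⟩
    exact hclosed.isOpen_compl.mem_nhds hnot
  -- counts
  have hsub0 : ∀ z0 ∈ Z, ball z0 ρ ⊆ K := fun z0 hz0 =>
    ball_subset_closedBall.trans (hρ1 z0 hz0).1
  have hbu : ∀ s ∈ Icc (0:ℝ) 1, cnt (dfam g h s) (⋃ z0 ∈ Z, ball z0 ρ) =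
      ∑ z0 ∈ Z, cnt (dfam g h s) (ball z0 ρ) := by
    intro s hs
    apply cnt_biUnion hρ2
    intro z0 hz0
    apply (hfinK s hs).subset
    rintro z ⟨h1, h2⟩
    exact ⟨hsub0 z0 hz0 h1, h2⟩
  have hcount0 : cnt (dfam g h s0) (cset K Th g h r s0) =
      ∑ z0 ∈ Z, cnt (dfam g h s0) (ball z0 ρ) := by
    rw [cnt_eq_toFinset hZfin, ← hZ]
    apply Finset.sum_congr rfl
    intro z0 hz0
    symm
    apply cnt_ball_single (mem_ball_self hρ0)
    intro z hz h0
    exact (hρ1 z0 hz0).2.1 z (ball_subset_closedBall hz) h0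
  filter_upwards [hHW, hout] with s hs1 hs2 hs
  have hcount : cnt (dfam g h s) (⋃ z0 ∈ Z, ball z0 ρ) =
      cnt (dfam g h s0) (cset K Th g h r s0) := by
    rw [hbu s hs, hcount0]
    exact Finset.sum_congr rfl hs1
  constructor
  · rw [← hcount]
    apply cnt_mono
    · intro z hz h0
      by_contra hnot
      exact hs2 z ⟨hz.1, hnot⟩ ⟨h0, hz.2⟩
    · apply (hfinK s hs).subset
      rintro z ⟨h1, h2⟩
      simp only [Set.mem_iUnion] at h1
      obtain ⟨z0, hz0, h1⟩ := h1
      exact ⟨hsub0 z0 hz0 h1, h2⟩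
  · intro hle
    rw [← hcount]
    apply cnt_mono
    · intro z hz h0
      simp only [Set.mem_iUnion] at hz
      obtain ⟨z0, hz0, hz⟩ := hz
      have hzK : z ∈ K := hsub0 z0 hz0 hz
      refine ⟨hzK, ?_⟩
      have h1 : dfam g h s0 z = -(((s - s0 : ℝ) : ℂ) * deriv h z) := by
        have : dfam g h s z - dfam g h s0 z = ((s - s0 : ℝ) : ℂ) * deriv h z := by
          unfold dfam
          push_cast
          ring
        rw [h0] at this
        rw [← this]; ring
      have h2 := (hρ1 z0 hz0).2.2 z (ball_subset_closedBall hz)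
      have h3 : ‖dfam g h s0 z‖ ≤ (s - s0) * M := by
        rw [h1, norm_neg, norm_mul, Complex.norm_real, Real.norm_eq_abs,
          abs_of_nonneg (by linarith)]
        exact mul_le_mul_of_nonneg_left (hM z hzK) (by linarith)
      have h4 : ‖fam g h s z - fam g h s0 z‖ ≤ (s - s0) * q := by
        have : fam g h s z - fam g h s0 z = ((s - s0 : ℝ) : ℂ) * h z := by
          unfold fam
          push_cast
          ring
        rw [this, norm_mul, Complex.norm_real, Real.norm_eq_abs, abs_of_nonneg (by linarith)]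
        exact mul_le_mul_of_nonneg_left (hhK z hzK) (by linarith)
      have h5 : infDist (fam g h s z) Th ≤ infDist (fam g h s0 z0) Th +
          dist (fam g h s z) (fam g h s0 z0) := infDist_le_infDist_add_dist
      have h6 : dist (fam g h s z) (fam g h s0 z0) ≤ (s - s0) * q + η * ((s - s0) * M) := by
        rw [dist_eq_norm]
        calc ‖fam g h s z - fam g h s0 z0‖ ≤ ‖fam g h s z - fam g h s0 z‖ +
              ‖fam g h s0 z - fam g h s0 z0‖ := norm_sub_le_norm_sub_add_norm_sub _ _ _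
          _ ≤ (s - s0) * q + η * ‖dfam g h s0 z‖ := add_le_add h4 h2
          _ ≤ (s - s0) * q + η * ((s - s0) * M) := by
              have := mul_le_mul_of_nonneg_left h3 hη0.le
              linarith
      have h7 : η * ((s - s0) * M) = (s - s0) * (r - q) := by
        rw [hη]
        field_simp
      have h8 := ((hZmem z0).1 hz0).1.2
      nlinarith
    · apply (hfinK s hs).subset
      rintro z ⟨h1, h2⟩
      exact ⟨h1.1, h2⟩

/-- critical value motion -/
theorem motion_of_hurwitz (HW : HurwitzStatement) (hK : IsCompact K) (hg : Differentiable ℂ g)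
    (hh : Differentiable ℂ h) (hq : 0 ≤ q) (hqr : q < r) (hhK : ∀ z ∈ K, ‖h z‖ ≤ q)
    (hnd : ∀ s ∈ Icc (0:ℝ) 1, ∃ z, deriv g z + s * deriv h z ≠ 0)
    (hb : ∀ z ∈ frontier K, r < infDist (g z + h z) Th) :
    cnt (deriv g) {z ∈ K | infDist (g z) Th ≤ 0} ≤
      cnt (deriv (fun z => g z + h z)) {z ∈ K | infDist (g z + h z) Th ≤ r} := by
  have hstep := step HW hK hg hh hq hqr hhK (Th := Th) (hnd := hnd) (hb := hb)
  set n : ℝ → ℕ := fun s => cnt (dfam g h s) (cset K Th g h r s) with hn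
  have e0 : cnt (deriv g) {z ∈ K | infDist (g z) Th ≤ 0} = n 0 := by
    rw [hn]
    simp only
    have h1 : dfam g h 0 = deriv g := by
      ext z; unfold dfam; simp
    have h2 : cset K Th g h r 0 = {z ∈ K | infDist (g z) Th ≤ 0} := by
      unfold cset fam; simp
    rw [h1, h2]
  have e1 : cnt (deriv (fun z => g z + h z)) {z ∈ K | infDist (g z + h z) Th ≤ r} = n 1 := by
    rw [hn]
    simp only
    have h1 : dfam g h 1 = deriv (fun z => g z + h z) := by
      rw [← deriv_fam hg hh]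
      congr 1
      ext z; unfold fam; simp
    have h2 : cset K Th g h r 1 = {z ∈ K | infDist (g z + h z) Th ≤ r} := by
      unfold cset fam; simp
    rw [h1, h2]
  rw [e0, e1]
  have hclosed : IsClosed ({s | n 0 ≤ n s} ∩ Icc (0:ℝ) 1) := by
    rw [← isOpen_compl_iff, isOpen_iff_mem_nhds]
    intro s hs
    by_cases hsI : s ∈ Icc (0:ℝ) 1
    · have hlt : ¬ n 0 ≤ n s := fun h => hs ⟨h, hsI⟩
      filter_upwards [hstep s hsI] with t ht htm
      have := (ht htm.2).1
      exact hlt (htm.1.trans this)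
    · filter_upwards [isClosed_Icc.isOpen_compl.mem_nhds hsI] with t ht htm
      exact ht htm.2
  have := hclosed.mem_of_ge_of_forall_exists_gt (a := 0) (b := 1) (s := {s | n 0 ≤ n s})
    (by simp) (by norm_num) (by
      intro s hs
      have h1 := hstep s ⟨hs.2.1, hs.2.2.le⟩
      have h2 : ∀ᶠ t in 𝓝[>] s, t ∈ Ioc s 1 := Ioc_mem_nhdsGT hs.2.2
      obtain ⟨t, ht1, ht2⟩ := ((h1.filter_mono nhdsWithin_le_nhds).and h2).exists
      refine ⟨t, ?_, ht2⟩
      have h3 := (ht1 ⟨hs.2.1.trans ht2.1.le, ht2.2⟩).2 ht2.1.le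
      exact hs.1.trans h3)
  exact this

end motion

end Helper95.EN
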