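import Pool.Agent.Helper95.EN.Fiber
import Pool.Agent.Helper82.EN.Mot

/-!
Maximal inverse branches (helper95), for the EN project of MP_9ee088_an: the final count with `cz`
and `cmp`.
-/

open Complex Set Filter Topology Metric

namespace Helper95.EN

open Pool.Agent.Helper82.EN

variable {f : ℂ → ℂ}

theorem cmp_eq_comp (f : ℂ → ℂ) (z : ℂ) (R : ℝ) :
    Pool.Agent.Helper82.EN.cmp f z R = Pool.Agent.Helper72.EN.comp f (f z) R z := rfl

theorem ord_le_od (F : ℂ → ℂ) (z : ℂ) : (analyticOrderNatAt F z : ENNReal) ≤ od F z := by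
  unfold od analyticOrderNatAt
  by_cases h : analyticOrderAt F z = ⊤
  · rw [h]; simp
  · conv_rhs => rw [← ENat.natCast_toNat h]
    simp

theorem sum_ord_le_cz (F : ℂ → ℂ) (S : Set ℂ) (Z : Finset ℂ) (hZ : ∀ z ∈ Z, z ∈ S) :
    ((∑ z ∈ Z, analyticOrderNatAt F z : ℕ) : ENNReal) ≤ cz F S := by
  rw [cz_eq_indicator, Nat.cast_sum]
  refine le_trans ?_ (ENNReal.sum_le_tsum Z)
  apply Finset.sum_le_sum
  intro z hz
  rw [indicator_of_mem (hZ z hz)]
  exact ord_le_od F z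

/-- the local form from the form on discs -/
theorem hurwitzLocal_of (HW : HurwitzStatement) : HurwitzLocal := by
  intro F hF hne z0
  have e2 : ∀ᶠ z in 𝓝 z0, F z = 0 → z = z0 := by
    have hA := hF.analyticAt z0
    rcases hA.eventually_eq_zero_or_eventually_ne_zero with h1 | h1
    · exact absurd (analyticOrderAt_eq_top.2 h1) (ord_ne_top hF hne z0)
    · rw [eventually_nhdsWithin_iff] at h1
      filter_upwards [h1] with z hz h0
      by_contra hne
      exact hz hne h0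
  obtain ⟨ε, hε, hball⟩ := Metric.eventually_nhds_iff_ball.1 e2
  filter_upwards [Ioo_mem_nhdsGT hε] with ρ hρ
  obtain ⟨δ, hδ, hδ'⟩ := HW F hF z0 ρ hρ.1 (by
    intro z hz h0
    have h1 : z ∈ ball z0 ε := by
      rw [mem_sphere] at hz
      rw [mem_ball, hz]
      exact hρ.2
    have := hball z h1 h0
    rw [this, mem_sphere, dist_self] at hz
    exact hρ.1.ne hz)
  refine ⟨δ, hδ, ?_⟩
  intro G hG hGF
  rw [hδ' G hG hGF]
  apply cnt_ball_single (mem_ball_self hρ.1)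
  intro z hz h0
  exact hball z (ball_subset_ball hρ.2.le hz) h0

/-- **Count of maximal inverse branches.** -/
theorem branch_count_of (HW : HurwitzStatement) (hf : Differentiable ℂ f) {w : ℂ} {R : ℝ}
    (T : Set ℂ)
    (hT : ∀ z ∈ T, f z = w ∧ Bornology.IsBounded (Pool.Agent.Helper82.EN.cmp f z R) ∧
      ∃ x ∈ Pool.Agent.Helper82.EN.cmp f z R, deriv f x = 0) :
    ∑' _z : T, (1 : ENNReal) ≤
      2 * cz (deriv f) ({u | ‖f u - w‖ < R} ∩ ⋃ z ∈ T, Pool.Agent.Helper82.EN.cmp f z R) := by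
  classical
  rw [ENNReal.tsum_eq_iSup_sum]
  apply iSup_le
  intro A
  obtain ⟨Z, hZ, hcard⟩ := count_fin (hurwitzLocal_of HW) hf (w := w) (R := R) (A.map (Function.Embedding.subtype _))
    (by
      intro z hz
      rw [Finset.mem_map] at hz
      obtain ⟨⟨z', hz'⟩, _, rfl⟩ := hz
      obtain ⟨a1, a2, a3⟩ := hT z' hz'
      rw [cmp_eq_comp, a1] at a2 a3
      exact ⟨a1, a2, a3⟩)
  have h1 : ∑ _z ∈ A, (1 : ENNReal) = ((A.map (Function.Embedding.subtype _)).card : ENNReal) := by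
    simp
  rw [h1]
  have h2 : ((∑ ζ ∈ Z, analyticOrderNatAt (deriv f) ζ : ℕ) : ENNReal) ≤
      cz (deriv f) ({u | ‖f u - w‖ < R} ∩ ⋃ z ∈ T, Pool.Agent.Helper82.EN.cmp f z R) := by
    apply sum_ord_le_cz
    intro ζ hζ
    obtain ⟨_, h3, z, hz, h4⟩ := hZ ζ hζ
    refine ⟨h3, ?_⟩
    rw [Finset.mem_map] at hz
    obtain ⟨⟨z', hz'⟩, _, rfl⟩ := hz
    simp only [Set.mem_iUnion]
    refine ⟨z', hz', ?_⟩
    rw [cmp_eq_comp, (hT z' hz').1]
    exact h4
  calc ((A.map (Function.Embedding.subtype _)).card : ENNReal)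
      ≤ ((∑ ζ ∈ Z, 2 * analyticOrderNatAt (deriv f) ζ : ℕ) : ENNReal) := by exact_mod_cast hcard
    _ = 2 * ((∑ ζ ∈ Z, analyticOrderNatAt (deriv f) ζ : ℕ) : ENNReal) := by
        rw [← Finset.mul_sum]
        push_cast
        ring
    _ ≤ _ := by gcongr

end Helper95.EN
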