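import Mathlib

/-!
Zero counts with multiplicity (helper95), for the EN project of MP_9ee088_an.
-/

open Complex Set Filter Topology Metric

namespace Helper95.EN

/-- number of zeros of `F` in `S`, with multiplicity (a finsum; meaningful if there are finitely
many zeros in `S`) -/
noncomputable def cnt (F : ℂ → ℂ) (S : Set ℂ) : ℕ := ∑ᶠ z ∈ S, analyticOrderNatAt F z

theorem ord_ne_zero_zero {F : ℂ → ℂ} {z : ℂ} (h : analyticOrderNatAt F z ≠ 0) : F z = 0 :=
  apply_eq_zero_of_analyticOrderNatAt_ne_zero h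

/-- zeros of a nonzero entire function in a compact set are finite in number -/
theorem finite_zeros {F : ℂ → ℂ} (hF : Differentiable ℂ F) (hne : ∃ z, F z ≠ 0) {K : Set ℂ}
    (hK : IsCompact K) : {z ∈ K | F z = 0}.Finite := by
  by_contra hinf
  obtain ⟨x, hx, hacc⟩ := Set.Infinite.exists_accPt_of_subset_isCompact (s := {z ∈ K | F z = 0})
    (K := K) hinf hK (fun z hz => hz.1)
  obtain ⟨w, hw⟩ := hne
  apply hw
  have hA : AnalyticOnNhd ℂ F univ := fun z _ => hF.analyticAt z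
  have h0 : AnalyticOnNhd ℂ (fun _ : ℂ => (0:ℂ)) univ := fun z _ => analyticAt_const
  have hfr : ∃ᶠ z in 𝓝[≠] x, F z = (fun _ : ℂ => (0:ℂ)) z := by
    rw [accPt_iff_frequently_nhdsNE] at hacc
    exact hacc.mono (fun z hz => hz.2)
  have := AnalyticOnNhd.eq_of_frequently_eq hA h0 hfr
  exact congrFun this w

theorem ord_ne_top {F : ℂ → ℂ} (hF : Differentiable ℂ F) (hne : ∃ z, F z ≠ 0) (z : ℂ) :
    analyticOrderAt F z ≠ ⊤ := by
  intro h
  rw [analyticOrderAt_eq_top] at h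
  obtain ⟨w, hw⟩ := hne
  apply hw
  have hA : AnalyticOnNhd ℂ F univ := fun z _ => hF.analyticAt z
  have h0 : AnalyticOnNhd ℂ (fun _ : ℂ => (0:ℂ)) univ := fun z _ => analyticAt_const
  have hfr : ∃ᶠ z in 𝓝[≠] z, F z = (fun _ : ℂ => (0:ℂ)) z :=
    (h.filter_mono nhdsWithin_le_nhds).frequently
  exact congrFun (AnalyticOnNhd.eq_of_frequently_eq hA h0 hfr) w

theorem ord_pos {F : ℂ → ℂ} (hF : Differentiable ℂ F) (hne : ∃ z, F z ≠ 0) {z : ℂ}
    (hz : F z = 0) : 1 ≤ analyticOrderNatAt F z := by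
  rw [Nat.one_le_iff_ne_zero]
  intro h
  have h1 := Nat.cast_analyticOrderNatAt (ord_ne_top hF hne z)
  rw [h] at h1
  have := (hF.analyticAt z).analyticOrderAt_eq_zero.1 h1.symm
  exact this hz

theorem cnt_eq {F : ℂ → ℂ} {S : Set ℂ} {T : Finset ℂ} (hTS : ∀ z ∈ T, z ∈ S)
    (hz : ∀ z ∈ S, F z = 0 → z ∈ T) : cnt F S = ∑ z ∈ T, analyticOrderNatAt F z := by
  unfold cnt
  apply finsum_mem_eq_sum_of_inter_support_eq
  ext z
  constructor
  · rintro ⟨h1, h2⟩
    exact ⟨hz z h1 (ord_ne_zero_zero h2), h2⟩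
  · rintro ⟨h1, h2⟩
    exact ⟨hTS z h1, h2⟩

theorem cnt_eq_toFinset {F : ℂ → ℂ} {S : Set ℂ} (hfin : {z ∈ S | F z = 0}.Finite) :
    cnt F S = ∑ z ∈ hfin.toFinset, analyticOrderNatAt F z := by
  apply cnt_eq
  · intro z hz
    rw [Set.Finite.mem_toFinset] at hz
    exact hz.1
  · intro z hz h0
    rw [Set.Finite.mem_toFinset]
    exact ⟨hz, h0⟩

theorem cnt_congr {F : ℂ → ℂ} {S S' : Set ℂ} (h : ∀ z, F z = 0 → (z ∈ S ↔ z ∈ S')) :
    cnt F S = cnt F S' := by
  unfold cnt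
  apply finsum_mem_inter_support_eq'
  intro z hz
  exact h z (ord_ne_zero_zero hz)

theorem cnt_mono {F : ℂ → ℂ} {S S' : Set ℂ} (hsub : ∀ z ∈ S, F z = 0 → z ∈ S')
    (hfin : {z ∈ S' | F z = 0}.Finite) : cnt F S ≤ cnt F S' := by
  have hfin1 : {z ∈ S | F z = 0}.Finite := by
    apply hfin.subset
    rintro z ⟨h1, h2⟩
    exact ⟨hsub z h1 h2, h2⟩
  rw [cnt_eq_toFinset hfin1, cnt_eq_toFinset hfin]
  apply Finset.sum_le_sum_of_subset
  intro z hz
  rw [Set.Finite.mem_toFinset] at hz ⊢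
  exact ⟨hsub z hz.1 hz.2, hz.2⟩

theorem cnt_biUnion {F : ℂ → ℂ} {I : Finset ℂ} {t : ℂ → Set ℂ}
    (hd : ∀ i ∈ I, ∀ j ∈ I, i ≠ j → Disjoint (t i) (t j))
    (hfin : ∀ i ∈ I, {z ∈ t i | F z = 0}.Finite) :
    cnt F (⋃ i ∈ I, t i) = ∑ i ∈ I, cnt F (t i) := by
  classical
  have h1 : cnt F (⋃ i ∈ I, t i) = cnt F (⋃ i ∈ (I : Set ℂ), {z ∈ t i | F z = 0}) := by
    apply cnt_congr
    intro z hz
    simp only [Set.mem_iUnion, Finset.mem_coe, Set.mem_sep_iff]
    constructor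
    · rintro ⟨i, hi, h⟩
      exact ⟨i, hi, h, hz⟩
    · rintro ⟨i, hi, h, _⟩
      exact ⟨i, hi, h⟩
  rw [h1]
  unfold cnt
  rw [finsum_mem_biUnion]
  · rw [finsum_mem_coe_finset]
    apply Finset.sum_congr rfl
    intro i hi
    apply finsum_mem_inter_support_eq'
    intro z hz
    simp only [Set.mem_sep_iff]
    exact ⟨fun h => h.1, fun h => ⟨h, ord_ne_zero_zero hz⟩⟩
  · intro i hi j hj hij
    exact (hd i hi j hj hij).mono (fun z hz => hz.1) (fun z hz => hz.1)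
  · exact I.finite_toSet
  · intro i hi
    exact hfin i hi

theorem cnt_ball_single {F : ℂ → ℂ} {S : Set ℂ} {z0 : ℂ} (hz0 : z0 ∈ S)
    (h : ∀ z ∈ S, F z = 0 → z = z0) : cnt F S = analyticOrderNatAt F z0 := by
  rw [cnt_eq (T := {z0})]
  · simp
  · intro z hz
    rw [Finset.mem_singleton] at hz
    rw [hz]; exact hz0
  · intro z hz h0
    rw [Finset.mem_singleton]
    exact h z hz h0

/-- near a point, a nonconstant holomorphic function minus its value is small compared with the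
derivative -/
theorem sub_le_deriv {f : ℂ → ℂ} (hf : Differentiable ℂ f) (hne : ∃ z, deriv f z ≠ 0) (z0 : ℂ)
    {η : ℝ} (hη : 0 < η) : ∀ᶠ z in 𝓝 z0, ‖f z - f z0‖ ≤ η * ‖deriv f z‖ := by
  have hfd : Differentiable ℂ (deriv f) := by
    intro z
    exact (hf.analyticAt z).deriv.differentiableAt
  have h1 := (hf.analyticAt z0).analyticOrderAt_deriv_add_one
  have htop := ord_ne_top hfd hne z0
  obtain ⟨u, hu, hu0, hu1⟩ := ((hfd.analyticAt z0).analyticOrderAt_ne_top).1 htop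
  set n := analyticOrderNatAt (deriv f) z0 with hn
  have h2 : analyticOrderAt (fun z => f z - f z0) z0 = ((n + 1 : ℕ) : ℕ∞) := by
    rw [← h1, ← Nat.cast_analyticOrderNatAt htop]
    simp [hn]
  have hA : AnalyticAt ℂ (fun z => f z - f z0) z0 := (hf.analyticAt z0).sub analyticAt_const
  obtain ⟨v, hv, hv0, hv1⟩ := (hA.analyticOrderAt_eq_natCast).1 h2
  have hlim : ∀ᶠ z in 𝓝 z0, ‖z - z0‖ * ‖v z‖ < η * ‖u z‖ := by
    have hc1 : ContinuousAt (fun z => ‖z - z0‖ * ‖v z‖) z0 := by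
      apply ContinuousAt.mul
      · fun_prop
      · exact hv.continuousAt.norm
    have hc2 : ContinuousAt (fun z => η * ‖u z‖) z0 := by
      apply ContinuousAt.mul continuousAt_const hu.continuousAt.norm
    apply hc1.eventually_lt hc2
    simp only [sub_self, norm_zero, zero_mul]
    positivity
  filter_upwards [hu1, hv1, hlim] with z h3 h4 h5
  rw [h3, h4]
  simp only [smul_eq_mul, norm_mul, norm_pow]
  calc ‖z - z0‖ ^ (n + 1) * ‖v z‖ = ‖z - z0‖ ^ n * (‖z - z0‖ * ‖v z‖) := by ring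
    _ ≤ ‖z - z0‖ ^ n * (η * ‖u z‖) := by
        apply mul_le_mul_of_nonneg_left h5.le (by positivity)
    _ = η * (‖z - z0‖ ^ n * ‖u z‖) := by ring

end Helper95.EN
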