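import Pool.Agent.Helper95.EN.Count
import Pool.Agent.Helper72.EN.Inv

/-!
Maximal inverse branches (helper95), for the EN project of MP_9ee088_an: the dichotomy.
-/

open Complex Set Filter Topology Metric

namespace Helper95.EN

open Pool.Agent.Helper72.EN

variable {f : ℂ → ℂ}

theorem isOpenMap_of (hf : Differentiable ℂ f) (hne : ∃ z, deriv f z ≠ 0) :
    ∀ s : Set ℂ, IsOpen s → IsOpen (f '' s) := by
  have hA : AnalyticOnNhd ℂ f univ := fun z _ => hf.analyticAt z
  rcases hA.is_constant_or_isOpen isPreconnected_univ with h | h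
  · exfalso
    obtain ⟨w, hw⟩ := h
    obtain ⟨z, hz⟩ := hne
    apply hz
    have : f = fun _ => w := by
      ext u
      exact hw u (mem_univ _)
    rw [this]
    simp
  · intro s hs
    exact h s (subset_univ _) hs

/-- a proper piece covers -/
theorem proper_onto (hf : Differentiable ℂ f) (hne : ∃ z, deriv f z ≠ 0) {O V : Set ℂ}
    (hO : IsOpen O) (hOb : Bornology.IsBounded O) (hV : IsPreconnected V)
    (hmeet : (V ∩ f '' O).Nonempty) (hcl : ∀ x ∈ closure O, f x ∈ V → x ∈ O) :
    V ⊆ f '' O := by
  have hu : IsOpen (f '' O) := isOpenMap_of hf hne O hO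
  have hcomp : IsCompact (closure O) := hOb.isCompact_closure
  have hv : IsOpen (f '' closure O)ᶜ :=
    (hcomp.image hf.continuous).isClosed.isOpen_compl
  have hdisj : Disjoint (f '' O) (f '' closure O)ᶜ := by
    rw [Set.disjoint_compl_right_iff_subset]
    exact image_mono subset_closure
  apply hV.subset_left_of_subset_union hu hv hdisj _ hmeet
  intro p hp
  by_cases h : p ∈ f '' closure O
  · left
    obtain ⟨x, hx, rfl⟩ := h
    exact ⟨x, hcl x hx hp, rfl⟩
  · right
    exact h

theorem comp_mono_r {w : ℂ} {r r' : ℝ} (h : r ≤ r') (s : ℂ) :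
    comp f w r s ⊆ comp f w r' s :=
  connectedComponentIn_mono s (fun _ hz => lt_of_lt_of_le hz h)

theorem closure_comp_le (hf : Continuous f) {w : ℂ} {r : ℝ} {s z : ℂ}
    (hz : z ∈ closure (comp f w r s)) : ‖f z - w‖ ≤ r := by
  have hc : IsClosed {z | ‖f z - w‖ ≤ r} := isClosed_le (by fun_prop) continuous_const
  have : closure (comp f w r s) ⊆ {z | ‖f z - w‖ ≤ r} :=
    closure_minimal (fun u hu => show ‖f u - w‖ ≤ r from le_of_lt (comp_sub w r s hu)) hc
  exact this hz

theorem closure_comp_subset (hf : Continuous f) {w : ℂ} {r r' : ℝ} (h : r < r') {s : ℂ}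
    (hs : ‖f s - w‖ < r) : closure (comp f w r s) ⊆ comp f w r' s := by
  apply IsPreconnected.subset_connectedComponentIn
  · exact (comp_preconn w r s).closure
  · exact subset_closure (mem_comp hs)
  · intro z hz
    exact lt_of_le_of_lt (closure_comp_le hf hz) h

/-- the component at radius `r1` is the union of the smaller ones -/
theorem comp_exhaust (hf : Continuous f) {w : ℂ} {r1 : ℝ} {s x : ℂ} (hs : ‖f s - w‖ < r1)
    (hx : x ∈ comp f w r1 s) : ∃ m < r1, ∀ r, m < r → x ∈ comp f w r s := by
  have hopen : IsOpen (comp f w r1 s) := comp_isOpen hf w r1 s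
  have hconn : IsConnected (comp f w r1 s) := ⟨⟨s, mem_comp hs⟩, comp_preconn w r1 s⟩
  have hpath : IsPathConnected (comp f w r1 s) := hopen.isConnected_iff_isPathConnected.1 hconn
  obtain ⟨γ, hγ⟩ := hpath.joinedIn s (mem_comp hs) x hx
  have hcomp : IsCompact (range γ) := isCompact_range γ.continuous
  obtain ⟨p, hp, hmax⟩ := hcomp.exists_isMaxOn (range_nonempty γ)
    (f := fun z => ‖f z - w‖) (by fun_prop)
  obtain ⟨t, rfl⟩ := hp
  refine ⟨‖f (γ t) - w‖, comp_sub w r1 s (hγ t), ?_⟩
  intro r hr
  have hsub : range γ ⊆ {z | ‖f z - w‖ < r} := by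
    rintro _ ⟨t', rfl⟩
    have h1 := hmax (mem_range_self t')
    simp only [Set.mem_ofPred_eq] at h1
    exact lt_of_le_of_lt h1 hr
  have h2 : range γ ⊆ comp f w r s := by
    apply IsPreconnected.subset_connectedComponentIn _ _ hsub
    · exact isPreconnected_range γ.continuous
    · exact ⟨0, γ.source⟩
  exact h2 ⟨1, γ.target⟩

/-- surjectivity near boundary points -/
theorem local_onto (hf : Differentiable ℂ f) (hne : ∃ z, deriv f z ≠ 0) {w : ℂ} {r : ℝ}
    {s x : ℂ} (hx : x ∈ closure (comp f w r s)) {ε : ℝ} (hε : 0 < ε) :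
    ∃ m > 0, ∀ p ∈ ball w r, p ∈ ball (f x) m → ∃ y ∈ comp f w r s, y ∈ ball x ε ∧ f y = p := by
  -- isolated point of the fibre
  have hiso : ∀ᶠ z in 𝓝[≠] x, f z ≠ f x := by
    have hA : AnalyticAt ℂ (fun z => f z - f x) x := (hf.analyticAt x).sub analyticAt_const
    rcases hA.eventually_eq_zero_or_eventually_ne_zero with h | h
    · exfalso
      have hd : Differentiable ℂ (fun z => f z - f x) := hf.sub (differentiable_const _)
      by_cases hz : ∃ z, f z - f x ≠ 0
      · exact ord_ne_top hd hz x (analyticOrderAt_eq_top.2 h)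
      · push Not at hz
        obtain ⟨z, hz1⟩ := hne
        apply hz1
        have : f = fun _ => f x := by
          ext u
          exact sub_eq_zero.1 (hz u)
        rw [this]
        simp
    · filter_upwards [h] with z hz h0
      exact hz (by rw [h0, sub_self])
  rw [eventually_nhdsWithin_iff] at hiso
  obtain ⟨e1, he1, hball⟩ := Metric.eventually_nhds_iff_ball.1 hiso
  set e := min (ε) (e1 / 2) with he
  have he0 : 0 < e := by rw [he]; positivity
  have hele : e < e1 := by
    have : e ≤ e1 / 2 := min_le_right _ _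
    linarith
  have hsph : ∀ z ∈ sphere x e, f z ≠ f x := by
    intro z hz
    apply hball z
    · rw [mem_ball]; rw [mem_sphere] at hz; rw [hz]; exact hele
    · intro h
      rw [Set.mem_singleton_iff] at h
      rw [h, mem_sphere, dist_self] at hz
      exact he0.ne hz
  obtain ⟨m, hm0, hm⟩ : ∃ m > 0, ∀ z ∈ sphere x e, m ≤ ‖f z - f x‖ := by
    have hc : IsCompact (sphere x e) := isCompact_sphere x e
    have hnes : (sphere x e).Nonempty := by
      rw [NormedSpace.sphere_nonempty]
      exact he0.le
    obtain ⟨z, hz, hmin⟩ := hc.exists_isMinOn hnes (f := fun z => ‖f z - f x‖)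
      (by have := hf.continuous; fun_prop)
    refine ⟨‖f z - f x‖, norm_pos_iff.2 (sub_ne_zero.2 (hsph z hz)), fun z' hz' => hmin hz'⟩
  refine ⟨m, hm0, ?_⟩
  set O := comp f w r s ∩ ball x e ∩ f ⁻¹' (ball (f x) m) with hO
  have hOo : IsOpen O := ((comp_isOpen hf.continuous w r s).inter isOpen_ball).inter
    (isOpen_ball.preimage hf.continuous)
  have hOb : Bornology.IsBounded O := by
    exact (Metric.isBounded_ball (x := x) (r := e)).subset (fun z hz => hz.1.2)
  have hVc : IsPreconnected (ball w r ∩ ball (f x) m) :=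
    ((convex_ball w r).inter (convex_ball (f x) m)).isPreconnected
  have hsub := proper_onto hf hne hOo hOb hVc (by
      -- a point of O
      have hnb : ball x e ∩ f ⁻¹' (ball (f x) m) ∈ 𝓝 x := by
        apply Filter.inter_mem (ball_mem_nhds x he0)
        exact hf.continuous.continuousAt.preimage_mem_nhds (ball_mem_nhds _ hm0)
      obtain ⟨y, hy1, hy2⟩ := mem_closure_iff_nhds.1 hx _ hnb
      refine ⟨f y, ⟨?_, hy1.2⟩, y, ⟨⟨hy2, hy1.1⟩, hy1.2⟩, rfl⟩
      rw [mem_ball, dist_eq_norm]
      exact comp_sub w r s hy2) (by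
      intro y hy hfy
      have h1 : y ∈ closure (comp f w r s) := closure_mono (fun z hz => hz.1.1) hy
      have h2 : y ∈ closedBall x e := by
        have : closure O ⊆ closedBall x e :=
          closure_minimal (fun z hz => ball_subset_closedBall hz.1.2) isClosed_closedBall
        exact this hy
      have h3 : y ∈ comp f w r s := by
        apply mem_of_closure hf.continuous h1
        have := hfy.1
        rw [mem_ball, dist_eq_norm] at this
        exact this
      refine ⟨⟨h3, ?_⟩, hfy.2⟩
      rw [mem_ball]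
      rw [mem_closedBall] at h2
      rcases h2.lt_or_eq with h4 | h4
      · exact h4
      · exfalso
        have h5 := hm y (by rw [mem_sphere]; exact h4)
        have h6 := hfy.2
        rw [mem_ball, dist_eq_norm] at h6
        linarith)
  intro p hp1 hp2
  obtain ⟨y, hy, hyp⟩ := hsub ⟨hp1, hp2⟩
  refine ⟨y, hy.1.1, ?_, hyp⟩
  have h7 := hy.1.2
  rw [mem_ball] at h7 ⊢
  exact lt_of_lt_of_le h7 (min_le_left _ _)

/-- injectivity passes to the closure -/
theorem injOn_closure (hf : Differentiable ℂ f) (hne : ∃ z, deriv f z ≠ 0) {w : ℂ} {r : ℝ}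
    {s : ℂ} (hinj : InjOn f (comp f w r s)) : InjOn f (closure (comp f w r s)) := by
  intro u hu v hv huv
  by_contra hne'
  have hd : 0 < dist u v / 2 := by
    have := dist_pos.2 hne'
    linarith
  obtain ⟨m1, hm1, h1⟩ := local_onto hf hne hu hd
  obtain ⟨m2, hm2, h2⟩ := local_onto hf hne hv hd
  have hcl : f u ∈ closure (ball w r) := by
    have hmaps : MapsTo f (comp f w r s) (ball w r) := by
      intro z hz
      rw [mem_ball, dist_eq_norm]
      exact comp_sub w r s hz
    exact map_mem_closure hf.continuous hu hmaps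
  obtain ⟨p, hp, hpd⟩ := Metric.mem_closure_iff.1 hcl (min m1 m2) (lt_min hm1 hm2)
  have hp1 : p ∈ ball (f u) m1 := by
    rw [mem_ball, dist_comm]; exact lt_of_lt_of_le hpd (min_le_left _ _)
  have hp2 : p ∈ ball (f v) m2 := by
    rw [← huv, mem_ball, dist_comm]; exact lt_of_lt_of_le hpd (min_le_right _ _)
  obtain ⟨y1, hy1, hy1b, hy1p⟩ := h1 p hp hp1
  obtain ⟨y2, hy2, hy2b, hy2p⟩ := h2 p hp hp2
  have heq : y1 = y2 := hinj hy1 hy2 (by rw [hy1p, hy2p])
  rw [← heq] at hy2b
  rw [mem_ball] at hy1b hy2b
  have := dist_triangle_left u v y1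
  linarith

theorem local_inj (hf : Differentiable ℂ f) {z : ℂ} (hz : deriv f z ≠ 0) :
    ∃ u ∈ 𝓝 z, InjOn f u := by
  have hst : HasStrictDerivAt f (deriv f z) z := (hf.analyticAt z).hasStrictDerivAt
  have h := hst.hasStrictFDerivAt_equiv hz
  refine ⟨(h.toOpenPartialHomeomorph f).source, ?_, ?_⟩
  · exact (h.toOpenPartialHomeomorph f).open_source.mem_nhds h.mem_toOpenPartialHomeomorph_source
  · have := (h.toOpenPartialHomeomorph f).injOn
    rwa [h.toOpenPartialHomeomorph_coe] at this

/-- small components are injective -/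
theorem small_inj (hf : Differentiable ℂ f) {z : ℂ} (hz : deriv f z ≠ 0) :
    ∃ r > 0, InjOn f (comp f (f z) r z) := by
  obtain ⟨u, hu, hinj⟩ := local_inj hf hz
  obtain ⟨e, he, hball⟩ := Metric.mem_nhds_iff.1 hu
  have hsph : ∀ y ∈ sphere z (e / 2), f y ≠ f z := by
    intro y hy h
    have hy1 : y ∈ u := hball (by
      rw [mem_ball]; rw [mem_sphere] at hy; rw [hy]; linarith)
    have := hinj hy1 (hball (mem_ball_self he)) h
    rw [this, mem_sphere, dist_self] at hy
    linarith
  have hc : IsCompact (sphere z (e / 2)) := isCompact_sphere _ _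
  have hnes : (sphere z (e / 2)).Nonempty := by
    rw [NormedSpace.sphere_nonempty]
    linarith
  obtain ⟨y, hy, hmin⟩ := hc.exists_isMinOn hnes (f := fun y => ‖f y - f z‖)
    (by have := hf.continuous; fun_prop)
  have hm0 : 0 < ‖f y - f z‖ := norm_pos_iff.2 (sub_ne_zero.2 (hsph y hy))
  refine ⟨‖f y - f z‖, hm0, ?_⟩
  apply hinj.mono
  refine Subset.trans ?_ hball
  -- the component does not cross the sphere
  have hpre := comp_preconn (f := f) (f z) ‖f y - f z‖ z
  have hsub : comp f (f z) ‖f y - f z‖ z ⊆ ball z (e / 2) := by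
    apply hpre.subset_left_of_subset_union (v := (closedBall z (e / 2))ᶜ) isOpen_ball
      isClosed_closedBall.isOpen_compl
    · rw [Set.disjoint_compl_right_iff_subset]
      exact ball_subset_closedBall
    · intro x hx
      by_cases hxb : x ∈ closedBall z (e / 2)
      · left
        rw [mem_closedBall] at hxb
        rw [mem_ball]
        rcases hxb.lt_or_eq with h4 | h4
        · exact h4
        · exfalso
          have h5 := hmin (show x ∈ sphere z (e / 2) by rw [mem_sphere]; exact h4)
          have h6 := comp_sub (f := f) _ _ _ hx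
          simp only [Set.mem_ofPred_eq] at h5 h6
          linarith
      · right
        exact hxb
    · refine ⟨z, mem_comp (by rw [sub_self, norm_zero]; exact hm0), mem_ball_self (by linarith)⟩
  exact hsub.trans (ball_subset_ball (by linarith))

/-- if the closure of an injective component has no critical point, then a slightly larger
component is still injective -/
theorem extend (hf : Differentiable ℂ f) {z : ℂ} (hz : deriv f z ≠ 0) {r R : ℝ} (hr : 0 < r)
    (hrR : r < R) (hb : Bornology.IsBounded (comp f (f z) r z))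
    (hinj : InjOn f (comp f (f z) r z))
    (hnc : ∀ x ∈ closure (comp f (f z) r z), deriv f x ≠ 0) :
    ∃ r', r < r' ∧ r' ≤ R ∧ InjOn f (comp f (f z) r' z) := by
  have hne : ∃ z, deriv f z ≠ 0 := ⟨z, hz⟩
  set w := f z with hw
  set C := comp f w r z with hC
  have hzC : z ∈ C := mem_comp (by rw [← hw, sub_self, norm_zero]; exact hr)
  have hcomp : IsCompact (closure C) := hb.isCompact_closure
  have hinjc := injOn_closure hf hne hinj
  obtain ⟨N, hNo, hCN, hNinj⟩ := hinjc.exists_isOpen_superset hcomp
    (fun x _ => hf.continuous.continuousAt) (fun x hx => local_inj hf (hnc x hx))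
  obtain ⟨δ, hδ, hδN⟩ := hcomp.exists_cthickening_subset_open hNo hCN
  set W := thickening δ (closure C) with hW
  have hWo : IsOpen W := isOpen_thickening
  have hclW : closure W ⊆ cthickening δ (closure C) := closure_thickening_subset_cthickening δ _
  have hCW : closure C ⊆ W := self_subset_thickening hδ _
  -- f maps the closure onto the closed disc
  have himg : ball w r ⊆ f '' C := by
    apply proper_onto hf hne (comp_isOpen hf.continuous w r z) hb (convex_ball w r).isPreconnected
    · exact ⟨w, mem_ball_self hr, z, hzC, rfl⟩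
    · intro x hx hfx
      apply mem_of_closure hf.continuous hx
      rw [mem_ball, dist_eq_norm] at hfx
      exact hfx
  have himg2 : closedBall w r ⊆ f '' closure C := by
    rw [← closure_ball w hr.ne']
    apply closure_minimal
    · exact himg.trans (image_mono subset_closure)
    · exact (hcomp.image hf.continuous).isClosed
  have hfr : ∀ x ∈ frontier W, r < ‖f x - w‖ := by
    intro x hx
    by_contra hle
    push Not at hle
    have h1 : f x ∈ closedBall w r := by
      rw [mem_closedBall, dist_eq_norm]; exact hle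
    obtain ⟨y, hy, hyx⟩ := himg2 h1
    have hxN : x ∈ N := hδN (hclW (frontier_subset_closure hx))
    have hyN : y ∈ N := hCN hy
    have := hNinj hyN hxN hyx
    rw [this] at hy
    have h2 : x ∉ W := by
      rw [hWo.frontier_eq] at hx
      exact hx.2
    exact h2 (hCW hy)
  have hfc : IsCompact (frontier W) := by
    have h1 : IsCompact (cthickening δ (closure C)) := hcomp.cthickening
    exact h1.of_isClosed_subset isClosed_frontier (frontier_subset_closure.trans hclW)
  obtain ⟨m, hm, hmf⟩ : ∃ m > r, ∀ x ∈ frontier W, m ≤ ‖f x - w‖ := by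
    rcases (frontier W).eq_empty_or_nonempty with he | hne2
    · refine ⟨r + 1, by linarith, ?_⟩
      intro x hx
      rw [he] at hx
      exact absurd hx (notMem_empty _)
    · obtain ⟨x, hx, hmin⟩ := hfc.exists_isMinOn hne2 (f := fun x => ‖f x - w‖)
        (by have := hf.continuous; fun_prop)
      exact ⟨‖f x - w‖, hfr x hx, fun y hy => hmin hy⟩
  refine ⟨min m R, lt_min hm hrR, min_le_right _ _, ?_⟩
  apply hNinj.mono
  have hsub : comp f w (min m R) z ⊆ W := by
    apply (comp_preconn (f := f) w (min m R) z).subset_left_of_subset_union hWo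
      (isClosed_closure (s := W)).isOpen_compl
    · rw [Set.disjoint_compl_right_iff_subset]
      exact subset_closure
    · intro x hx
      by_cases hxc : x ∈ closure W
      · left
        by_contra hxW
        have h3 : x ∈ frontier W := by
          rw [hWo.frontier_eq]
          exact ⟨hxc, hxW⟩
        have h4 := hmf x h3
        have h5 := comp_sub (f := f) _ _ _ hx
        simp only [Set.mem_ofPred_eq] at h5
        have := lt_of_lt_of_le h5 (min_le_left m R)
        linarith
      · right
        exact hxc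
    · refine ⟨z, mem_comp ?_, hCW (subset_closure hzC)⟩
      rw [← hw, sub_self, norm_zero]
      exact lt_min (by linarith) (by linarith)
  exact hsub.trans (subset_closure.trans (hclW.trans hδN))

/-- **Dichotomy.** -/
theorem dichotomy (hf : Differentiable ℂ f) {z : ℂ} (hz : deriv f z ≠ 0) {R : ℝ}
    (hb : Bornology.IsBounded (comp f (f z) R z)) :
    InjOn f (comp f (f z) R z) ∨
      ∃ r, 0 < r ∧ r < R ∧ InjOn f (comp f (f z) r z) ∧
        ∃ ζ ∈ closure (comp f (f z) r z), deriv f ζ = 0 := by
  by_cases hR : R ≤ 0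
  · left
    intro x hx
    exfalso
    have h1 := comp_sub (f := f) _ _ _ hx
    simp only [Set.mem_ofPred_eq] at h1
    have := norm_nonneg (f x - f z)
    linarith
  push Not at hR
  obtain ⟨r0, hr0, hinj0⟩ := small_inj hf hz
  set S : Set ℝ := {ρ | 0 < ρ ∧ ρ ≤ R ∧ InjOn f (comp f (f z) ρ z)} with hS
  have hS0 : min r0 R ∈ S :=
    ⟨lt_min hr0 hR, min_le_right _ _, hinj0.mono (comp_mono_r (min_le_left _ _) z)⟩
  have hbdd : BddAbove S := ⟨R, fun ρ hρ => hρ.2.1⟩
  set r1 := sSup S with hr1
  have hr1pos : 0 < r1 := lt_of_lt_of_le hS0.1 (le_csSup hbdd hS0)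
  have hr1R : r1 ≤ R := csSup_le ⟨_, hS0⟩ (fun ρ hρ => hρ.2.1)
  have hzlt : ‖f z - f z‖ < r1 := by rw [sub_self, norm_zero]; exact hr1pos
  have hinj1 : InjOn f (comp f (f z) r1 z) := by
    intro x hx y hy hxy
    obtain ⟨m1, hm1, h1⟩ := comp_exhaust hf.continuous hzlt hx
    obtain ⟨m2, hm2, h2⟩ := comp_exhaust hf.continuous hzlt hy
    obtain ⟨ρ, hρ, hρ1⟩ := exists_lt_of_lt_csSup ⟨_, hS0⟩ (max_lt hm1 hm2)
    exact hρ.2.2 (h1 ρ (lt_of_le_of_lt (le_max_left _ _) hρ1))
      (h2 ρ (lt_of_le_of_lt (le_max_right _ _) hρ1)) hxy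
  rcases hr1R.eq_or_lt with he | hlt
  · left
    rw [he] at hinj1
    exact hinj1
  · right
    refine ⟨r1, hr1pos, hlt, hinj1, ?_⟩
    by_contra hno
    push Not at hno
    obtain ⟨r', hr', hr'R, hinj'⟩ := extend hf hz hr1pos hlt
      (hb.subset (comp_mono_r hlt.le z)) hinj1 hno
    have : r' ≤ r1 := le_csSup hbdd ⟨by linarith, hr'R, hinj'⟩
    linarith

end Helper95.EN
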